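import Pool.Agent.Helper88_DIF.Final

/-!
# Prescribed Paneitz curvature on `S^4` up to diffeomorphisms

For a smooth function `Q` on the unit sphere `S^4` there is a smooth diffeomorphism `φ` of `S^4`
such that `Q ∘ φ` is the Paneitz curvature of a metric pointwise conformal to the round metric
if and only if `Q` is positive somewhere.  For nonconstant `Q` the diffeomorphism can be chosen
such that `Q₂ ∘ φ` is a Paneitz curvature for all smooth `Q₂` uniformly close to `Q`.

The proof (squad DIF and FLX: helper25, helper54, helper55, helper56, helper60, helper69,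
helper82, helper88 and the members of squad FLX).  After a scaling `Q` takes the values `6` and
`6 + e` with a small `e > 0` at two points.  Diffeomorphisms `φ_k`, compositions of a shear by
rotations and of projective maps, make `Q ∘ φ_k` converge in `L²` to `6 + e χ`, where `χ` is the
indicator function of a set which is balanced in a nondegenerate way for the conformal group.
Every `q` with `q - 6 - e χ` small in `L²` compared with `e` is a Paneitz curvature: fixed point
argument for the Green operator modulo the first spherical harmonics, and the Brouwer fixed point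
theorem for the parameter of the Moebius group.
-/

set_option autoImplicit false

open scoped Manifold ContDiff

noncomputable section

namespace Pool.Agent.Helper36_NGP.Former.DiffeoOrbit

open Pool.Agent.Helper42_Paneitz

/-- Smooth functions on `S^4`. -/
def Smooth (f : S4 → ℝ) : Prop := ContMDiff (𝓡 4) 𝓘(ℝ, ℝ) ∞ f

/-- Smooth maps of `S^4` to itself. -/
def SmoothMap (φ : S4 → S4) : Prop := ContMDiff (𝓡 4) (𝓡 4) ∞ φ

/-- Smooth diffeomorphisms of `S^4`: smooth maps with a smooth inverse. -/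
def IsDiffeo (φ : S4 → S4) : Prop :=
  SmoothMap φ ∧ ∃ ψ : S4 → S4, SmoothMap ψ ∧ (∀ x, ψ (φ x) = x) ∧ ∀ x, φ (ψ x) = x

theorem isDiffeo_of_dif {φ : S4 → S4} (h : Pool.Agent.DIF.Dif φ) : IsDiffeo φ := by
  obtain ⟨ψ, hψ⟩ := h
  have e : (fun x => ψ x) = φ := funext hψ
  have h1 : ContMDiff (𝓡 4) (𝓡 4) ∞ (fun x => ψ x) := ψ.contMDiff
  have h2 : ContMDiff (𝓡 4) (𝓡 4) ∞ (fun x => ψ.symm x) := ψ.symm.contMDiff
  rw [e] at h1
  refine ⟨h1, fun x => ψ.symm x, h2, fun x => ?_, fun x => ?_⟩
  · rw [← hψ x]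
    exact ψ.symm_apply_apply x
  · rw [← hψ]
    exact ψ.apply_symm_apply x

/-- (1) `Q ∘ φ` is a Paneitz curvature for some diffeomorphism `φ` if and only if `Q` is positive
somewhere. (2) If `Q` is positive somewhere and not constant, then for some diffeomorphism `φ` all
smooth functions `Q₂` uniformly close to `Q` have the property that `Q₂ ∘ φ` is a Paneitz
curvature. -/
theorem result (Q : S4 → ℝ) (hQ : Smooth Q) :
    ((∃ φ, IsDiffeo φ ∧ IsPaneitzCurvature (fun x => Q (φ x))) ↔ ∃ x, 0 < Q x) ∧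
    ((∃ x, 0 < Q x) → (∃ x y, Q x ≠ Q y) →
      ∃ φ, IsDiffeo φ ∧ ∃ δ : ℝ, 0 < δ ∧
        ∀ Q₂, Smooth Q₂ → (∀ x, |Q₂ x - Q x| ≤ δ) →
          IsPaneitzCurvature (fun x => Q₂ (φ x))) := by
  refine ⟨⟨?_, ?_⟩, ?_⟩
  · rintro ⟨φ, -, hφ⟩
    obtain ⟨x, hx⟩ := exists_pos hφ
    exact ⟨φ x, hx⟩
  · intro hpos
    obtain ⟨φ, hφ, h⟩ := Pool.Agent.DIF.H88.t_asd Q (sm_of_contMDiff hQ) hpos
    exact ⟨φ, isDiffeo_of_dif hφ, h⟩
  · intro hpos hcon
    obtain ⟨φ, hφ, δ, hδ, h⟩ := Pool.Agent.DIF.H88.t_asd2 Q (sm_of_contMDiff hQ) hpos hcon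
    exact ⟨φ, isDiffeo_of_dif hφ, δ, hδ, fun Q₂ hQ₂ hn => h Q₂ (sm_of_contMDiff hQ₂) hn⟩

end Pool.Agent.Helper36_NGP.Former.DiffeoOrbit
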